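import Mathlib

/-!
# A six-dimensional centrally essential algebra

`B6 k` is the algebra over the commutative ring `k` with basis `1, x, y, z, p, q` in which
`x y = p`, `x z = z x = p`, `y z = z y = q` and all other products of two of `x, y, z, p, q` vanish.
Its center is spanned by `1, z, p, q`, and multiplication by `z` moves every element outside the
center to a nonzero central element.
-/

namespace Pool.Agent.V111

/-- The six-dimensional algebra: coordinates with respect to `1, x, y, z, p, q`. -/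
@[ext] structure B6 (k : Type*) where
  /-- coefficient of `1` -/
  e : k
  /-- coefficient of `x` -/
  x : k
  /-- coefficient of `y` -/
  y : k
  /-- coefficient of `z` -/
  z : k
  /-- coefficient of `p` -/
  p : k
  /-- coefficient of `q` -/
  q : k

namespace B6

variable {k : Type*} [CommRing k]

instance : Zero (B6 k) := ⟨⟨0, 0, 0, 0, 0, 0⟩⟩
instance : One (B6 k) := ⟨⟨1, 0, 0, 0, 0, 0⟩⟩
instance : Add (B6 k) :=
  ⟨fun a b => ⟨a.e + b.e, a.x + b.x, a.y + b.y, a.z + b.z, a.p + b.p, a.q + b.q⟩⟩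
instance : Neg (B6 k) := ⟨fun a => ⟨-a.e, -a.x, -a.y, -a.z, -a.p, -a.q⟩⟩
instance : Mul (B6 k) := ⟨fun a b =>
  ⟨a.e * b.e, a.e * b.x + a.x * b.e, a.e * b.y + a.y * b.e, a.e * b.z + a.z * b.e,
    a.e * b.p + a.p * b.e + a.x * b.y + a.x * b.z + a.z * b.x,
    a.e * b.q + a.q * b.e + a.y * b.z + a.z * b.y⟩⟩

@[simp] theorem zero_e : (0 : B6 k).e = 0 := rfl
@[simp] theorem zero_x : (0 : B6 k).x = 0 := rfl
@[simp] theorem zero_y : (0 : B6 k).y = 0 := rfl
@[simp] theorem zero_z : (0 : B6 k).z = 0 := rfl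
@[simp] theorem zero_p : (0 : B6 k).p = 0 := rfl
@[simp] theorem zero_q : (0 : B6 k).q = 0 := rfl
@[simp] theorem one_e : (1 : B6 k).e = 1 := rfl
@[simp] theorem one_x : (1 : B6 k).x = 0 := rfl
@[simp] theorem one_y : (1 : B6 k).y = 0 := rfl
@[simp] theorem one_z : (1 : B6 k).z = 0 := rfl
@[simp] theorem one_p : (1 : B6 k).p = 0 := rfl
@[simp] theorem one_q : (1 : B6 k).q = 0 := rfl
@[simp] theorem add_e (a b : B6 k) : (a + b).e = a.e + b.e := rfl
@[simp] theorem add_x (a b : B6 k) : (a + b).x = a.x + b.x := rfl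
@[simp] theorem add_y (a b : B6 k) : (a + b).y = a.y + b.y := rfl
@[simp] theorem add_z (a b : B6 k) : (a + b).z = a.z + b.z := rfl
@[simp] theorem add_p (a b : B6 k) : (a + b).p = a.p + b.p := rfl
@[simp] theorem add_q (a b : B6 k) : (a + b).q = a.q + b.q := rfl
@[simp] theorem neg_e (a : B6 k) : (-a).e = -a.e := rfl
@[simp] theorem neg_x (a : B6 k) : (-a).x = -a.x := rfl
@[simp] theorem neg_y (a : B6 k) : (-a).y = -a.y := rfl
@[simp] theorem neg_z (a : B6 k) : (-a).z = -a.z := rfl
@[simp] theorem neg_p (a : B6 k) : (-a).p = -a.p := rfl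
@[simp] theorem neg_q (a : B6 k) : (-a).q = -a.q := rfl
@[simp] theorem mul_e (a b : B6 k) : (a * b).e = a.e * b.e := rfl
@[simp] theorem mul_x (a b : B6 k) : (a * b).x = a.e * b.x + a.x * b.e := rfl
@[simp] theorem mul_y (a b : B6 k) : (a * b).y = a.e * b.y + a.y * b.e := rfl
@[simp] theorem mul_z (a b : B6 k) : (a * b).z = a.e * b.z + a.z * b.e := rfl
@[simp] theorem mul_p (a b : B6 k) : (a * b).p =
    a.e * b.p + a.p * b.e + a.x * b.y + a.x * b.z + a.z * b.x := rfl
@[simp] theorem mul_q (a b : B6 k) : (a * b).q =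
    a.e * b.q + a.q * b.e + a.y * b.z + a.z * b.y := rfl

instance : AddCommGroup (B6 k) where
  add_assoc a b c := by ext <;> simp [add_assoc]
  zero_add a := by ext <;> simp
  add_zero a := by ext <;> simp
  nsmul := nsmulRec
  zsmul := zsmulRec
  neg_add_cancel a := by ext <;> simp
  add_comm a b := by ext <;> simp [add_comm]

instance : Ring (B6 k) where
  left_distrib a b c := by ext <;> simp <;> ring
  right_distrib a b c := by ext <;> simp <;> ring
  zero_mul a := by ext <;> simp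
  mul_zero a := by ext <;> simp
  one_mul a := by ext <;> simp
  mul_one a := by ext <;> simp
  mul_assoc a b c := by ext <;> simp <;> ring
  zsmul := zsmulRec
  neg_add_cancel := neg_add_cancel

@[simp] theorem sub_e (a b : B6 k) : (a - b).e = a.e - b.e := by
  rw [sub_eq_add_neg]; simp [sub_eq_add_neg]
@[simp] theorem sub_x (a b : B6 k) : (a - b).x = a.x - b.x := by
  rw [sub_eq_add_neg]; simp [sub_eq_add_neg]
@[simp] theorem sub_y (a b : B6 k) : (a - b).y = a.y - b.y := by
  rw [sub_eq_add_neg]; simp [sub_eq_add_neg]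
@[simp] theorem sub_z (a b : B6 k) : (a - b).z = a.z - b.z := by
  rw [sub_eq_add_neg]; simp [sub_eq_add_neg]
@[simp] theorem sub_p (a b : B6 k) : (a - b).p = a.p - b.p := by
  rw [sub_eq_add_neg]; simp [sub_eq_add_neg]
@[simp] theorem sub_q (a b : B6 k) : (a - b).q = a.q - b.q := by
  rw [sub_eq_add_neg]; simp [sub_eq_add_neg]

theorem mem_center_iff (a : B6 k) : a ∈ Subring.center (B6 k) ↔ a.x = 0 ∧ a.y = 0 := by
  rw [Subring.mem_center_iff]
  constructor
  · intro h
    have h1 := congrArg B6.p (h ⟨0, 0, 1, 0, 0, 0⟩)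
    have h2 := congrArg B6.p (h ⟨0, 1, 0, 0, 0, 0⟩)
    simp at h1 h2
    exact ⟨h1.symm, h2⟩
  · rintro ⟨h1, h2⟩ b
    ext <;> simp [h1, h2] <;> ring

/-- The additive group is a product of six copies of `k`. -/
def addEquiv : B6 k ≃+ (k × k × k × k × k × k) where
  toFun a := (a.e, a.x, a.y, a.z, a.p, a.q)
  invFun a := ⟨a.1, a.2.1, a.2.2.1, a.2.2.2.1, a.2.2.2.2.1, a.2.2.2.2.2⟩
  left_inv _ := rfl
  right_inv _ := rfl
  map_add' _ _ := rfl

/-- Every nonzero element has a nonzero central multiple by a nonzero central element. -/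
theorem ess [Nontrivial k] (a : B6 k) (ha : a ≠ 0) :
    ∃ x ∈ Subring.center (B6 k), ∃ y ∈ Subring.center (B6 k), x ≠ 0 ∧ y ≠ 0 ∧ a * x = y := by
  by_cases hc : a.x = 0 ∧ a.y = 0
  · refine ⟨1, one_mem _, a, (mem_center_iff a).2 hc, ?_, ha, mul_one a⟩
    intro h
    have := congrArg B6.e h
    simp at this
  · refine ⟨⟨0, 0, 0, 1, 0, 0⟩, (mem_center_iff _).2 ⟨rfl, rfl⟩, _, ?_, ?_, ?_, rfl⟩
    · rw [mem_center_iff]; simp
    · intro h
      have := congrArg B6.z h
      simp at this
    · intro h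
      have h1 := congrArg B6.p h
      have h2 := congrArg B6.q h
      simp at h1 h2
      exact hc ⟨h1, h2⟩

end B6

end Pool.Agent.V111
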