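import Pool.Agent.V111.CEss

/-!
The rational algebra `B6 ℚ` and its lattice of integral elements.
-/

namespace Pool.Agent.V111

/-- A rational number which is divisible by all powers of a prime in `ℤ_(ℓ)` is zero. -/
theorem rat_eq_zero {ℓ : ℕ} (hℓ : ℓ.Prime) {q : ℚ}
    (h : ∀ k : ℕ, ∃ m : ℕ, ¬ ℓ ∣ m ∧ ∃ z : ℤ, (m : ℚ) * q = (ℓ : ℚ) ^ k * z) : q = 0 := by
  have h1 : ∀ k : ℕ, (ℓ : ℤ) ^ k ∣ q.num := by
    intro k
    obtain ⟨m, hm, z, hz⟩ := h k
    have h2 : (m : ℤ) * q.num = (ℓ : ℤ) ^ k * (z * q.den) := by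
      have h3 : (m : ℚ) * q.num = (ℓ : ℚ) ^ k * (z * q.den) := by
        have h4 : (q.num : ℚ) = q * q.den := (Rat.mul_den_eq_num q).symm
        rw [h4, ← mul_assoc, hz]; ring
      exact_mod_cast h3
    have hcop : IsCoprime ((ℓ : ℤ) ^ k) (m : ℤ) := by
      apply IsCoprime.pow_left
      rw [Nat.isCoprime_iff_coprime]
      exact (Nat.Prime.coprime_iff_not_dvd hℓ).mpr hm
    exact hcop.dvd_of_dvd_mul_left (Dvd.intro _ h2.symm)
  have h2 : q.num = 0 := by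
    by_contra hne
    obtain ⟨k, hk⟩ : ∃ k : ℕ, q.num.natAbs < ℓ ^ k := ⟨_, Nat.lt_pow_self hℓ.one_lt⟩
    have h3 := Int.natAbs_dvd_natAbs.mpr (h1 k)
    rw [Int.natAbs_pow, Int.natAbs_natCast] at h3
    have h4 := Nat.le_of_dvd (Int.natAbs_pos.mpr hne) h3
    omega
  exact Rat.num_eq_zero.mp h2

namespace B6

variable {k l : Type*} [CommRing k] [CommRing l]

/-- Base change. -/
def map (φ : k →+* l) : B6 k →+* B6 l where
  toFun a := ⟨φ a.e, φ a.x, φ a.y, φ a.z, φ a.p, φ a.q⟩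
  map_one' := by ext <;> simp
  map_zero' := by ext <;> simp
  map_mul' a b := by ext <;> simp
  map_add' a b := by ext <;> simp

theorem map_apply (φ : k →+* l) (a : B6 k) :
    map φ a = ⟨φ a.e, φ a.x, φ a.y, φ a.z, φ a.p, φ a.q⟩ := rfl

theorem map_injective {φ : k →+* l} (hφ : Function.Injective φ) :
    Function.Injective (map φ) := by
  intro a b h
  rw [map_apply, map_apply, B6.mk.injEq] at h
  obtain ⟨h1, h2, h3, h4, h5, h6⟩ := h
  ext
  · exact hφ h1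
  · exact hφ h2
  · exact hφ h3
  · exact hφ h4
  · exact hφ h5
  · exact hφ h6

/-- The scalars. -/
def scal : k →+* B6 k where
  toFun c := ⟨c, 0, 0, 0, 0, 0⟩
  map_one' := rfl
  map_zero' := rfl
  map_mul' a b := by ext <;> simp
  map_add' a b := by ext <;> simp

theorem scal_apply (c : k) : (scal c : B6 k) = ⟨c, 0, 0, 0, 0, 0⟩ := rfl

noncomputable instance : Algebra ℚ (B6 ℚ) := RingHom.toAlgebra' (scal (k := ℚ)) (by
  intro c x
  rw [scal_apply]
  ext <;> simp <;> ring)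

instance : Countable (B6 ℚ) := Countable.of_equiv _ (addEquiv (k := ℚ)).symm.toEquiv
instance : Countable (B6 ℤ) := Countable.of_equiv _ (addEquiv (k := ℤ)).symm.toEquiv

/-- The integral elements of `B6 ℚ`. -/
noncomputable def intB : Subring (B6 ℚ) := (map (Int.castRingHom ℚ)).range

theorem mem_intB {v : B6 ℚ} : v ∈ intB ↔ ∃ b : B6 ℤ, map (Int.castRingHom ℚ) b = v := Iff.rfl

theorem red_intB {ℓ : ℕ} (hℓ : ℓ.Prime) {v : B6 ℚ}
    (h : ∀ k : ℕ, ∃ m : ℕ, ¬ ℓ ∣ m ∧ ∃ s ∈ intB, (m : B6 ℚ) * v = (ℓ : B6 ℚ) ^ k * s) : v = 0 := by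
  have h' : ∀ k : ℕ, ∃ m : ℕ, ¬ ℓ ∣ m ∧ ∃ b : B6 ℤ,
      (m : ℚ) * v.e = (ℓ : ℚ) ^ k * b.e ∧ (m : ℚ) * v.x = (ℓ : ℚ) ^ k * b.x ∧
      (m : ℚ) * v.y = (ℓ : ℚ) ^ k * b.y ∧ (m : ℚ) * v.z = (ℓ : ℚ) ^ k * b.z ∧
      (m : ℚ) * v.p = (ℓ : ℚ) ^ k * b.p ∧ (m : ℚ) * v.q = (ℓ : ℚ) ^ k * b.q := by
    intro k
    obtain ⟨m, hm, s, ⟨b, rfl⟩, hs⟩ := h k
    refine ⟨m, hm, b, ?_⟩
    rw [← Nat.cast_pow, natCast_eq, natCast_eq, map_apply, B6.ext_iff] at hs
    simpa using hs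
  ext
  · exact rat_eq_zero hℓ (fun k => by
      obtain ⟨m, hm, b, h1, -⟩ := h' k; exact ⟨m, hm, _, h1⟩)
  · exact rat_eq_zero hℓ (fun k => by
      obtain ⟨m, hm, b, -, h1, -⟩ := h' k; exact ⟨m, hm, _, h1⟩)
  · exact rat_eq_zero hℓ (fun k => by
      obtain ⟨m, hm, b, -, -, h1, -⟩ := h' k; exact ⟨m, hm, _, h1⟩)
  · exact rat_eq_zero hℓ (fun k => by
      obtain ⟨m, hm, b, -, -, -, h1, -⟩ := h' k; exact ⟨m, hm, _, h1⟩)
  · exact rat_eq_zero hℓ (fun k => by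
      obtain ⟨m, hm, b, -, -, -, -, h1, -⟩ := h' k; exact ⟨m, hm, _, h1⟩)
  · exact rat_eq_zero hℓ (fun k => by
      obtain ⟨m, hm, b, -, -, -, -, -, h1⟩ := h' k; exact ⟨m, hm, _, h1⟩)

/-- An idempotent of `B6 ℚ` is `0` or `1`. -/
theorem idem {v : B6 ℚ} (h : v * v = v) : v = 0 ∨ v = 1 := by
  have he := congrArg B6.e h
  have hx := congrArg B6.x h
  have hy := congrArg B6.y h
  have hz := congrArg B6.z h
  have hp := congrArg B6.p h
  have hq := congrArg B6.q h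
  simp only [mul_e, mul_x, mul_y, mul_z, mul_p, mul_q] at he hx hy hz hp hq
  have h0 : v.e = 0 ∨ v.e = 1 := by
    have : v.e * (v.e - 1) = 0 := by linarith
    rcases mul_eq_zero.mp this with h | h
    · exact Or.inl h
    · exact Or.inr (by linarith)
  rcases h0 with h0 | h0
  · left
    rw [h0] at hx hy hz hp hq
    have e1 : v.x = 0 := by linarith
    have e2 : v.y = 0 := by linarith
    have e3 : v.z = 0 := by linarith
    rw [e1, e2, e3] at hp
    rw [e2, e3] at hq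
    ext
    · exact h0
    · exact e1
    · exact e2
    · exact e3
    · simp only [zero_p]; linarith
    · simp only [zero_q]; linarith
  · right
    rw [h0] at hx hy hz hp hq
    have e1 : v.x = 0 := by linarith
    have e2 : v.y = 0 := by linarith
    have e3 : v.z = 0 := by linarith
    rw [e1, e2, e3] at hp
    rw [e2, e3] at hq
    ext
    · exact h0
    · exact e1
    · exact e2
    · exact e3
    · simp only [one_p]; linarith
    · simp only [one_q]; linarith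

end B6

end Pool.Agent.V111
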