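import Pool.Agent.V111.Realize
import Pool.Agent.V111.B6

/-!
Centrally essential rings, and groups with centrally essential endomorphism rings.
-/

namespace Pool.Agent.V111

/-- `S` is centrally essential: every nonzero `a` has `a x = y` with nonzero central `x`, `y`. -/
def CentrallyEssential (S : Type) [Ring S] : Prop :=
  ∀ a : S, a ≠ 0 → ∃ x ∈ Subring.center S, ∃ y ∈ Subring.center S, x ≠ 0 ∧ y ≠ 0 ∧ a * x = y

namespace Realize

variable {T : Type} [Ring T] [Algebra ℚ T]

/-- A subring lying between `R` and `ℚ R` is centrally essential if `R` is. -/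
theorem centrallyEssential_of (R O : Subring T) (hRO : R ≤ O)
    (hO : ∀ a ∈ O, ∃ n : ℕ, 0 < n ∧ (n : T) * a ∈ R)
    (hce : ∀ r ∈ R, r ≠ 0 → ∃ x ∈ R, ∃ y ∈ R, (∀ t ∈ R, t * x = x * t) ∧
      (∀ t ∈ R, t * y = y * t) ∧ x ≠ 0 ∧ y ≠ 0 ∧ r * x = y) :
    CentrallyEssential O := by
  have hcomm : ∀ x : T, (∀ t ∈ R, t * x = x * t) → ∀ t ∈ O, t * x = x * t := by
    intro x hx t ht
    obtain ⟨n, hn, hnt⟩ := hO t ht
    apply natCast_cancel hn
    rw [← mul_assoc, hx _ hnt, ← mul_assoc, ← mul_assoc, Nat.cast_comm]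
  intro a ha
  obtain ⟨n, hn, hna⟩ := hO a a.2
  have hne : (n : T) * (a : T) ≠ 0 := by
    intro h
    apply ha
    apply Subtype.ext
    apply natCast_cancel hn
    rw [h]; simp
  obtain ⟨x, hx, y, hy, hxc, hyc, hx0, hy0, hxy⟩ := hce _ hna hne
  refine ⟨⟨(n : T) * x, hRO (R.mul_mem (natCast_mem R n) hx)⟩, ?_, ⟨y, hRO hy⟩, ?_, ?_, ?_, ?_⟩
  · rw [Subring.mem_center_iff]
    intro t
    apply Subtype.ext
    change (t : T) * ((n : T) * x) = (n : T) * x * t
    rw [← mul_assoc, ← Nat.cast_comm, mul_assoc, hcomm x hxc t t.2, mul_assoc]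
  · rw [Subring.mem_center_iff]
    intro t
    apply Subtype.ext
    exact hcomm y hyc t t.2
  · intro h
    apply hx0
    apply natCast_cancel hn
    rw [mul_zero]
    exact congrArg Subtype.val h
  · intro h
    exact hy0 (congrArg Subtype.val h)
  · apply Subtype.ext
    change (a : T) * ((n : T) * x) = y
    rw [← hxy, ← mul_assoc, Nat.cast_comm]

theorem centrallyEssential_congr {S S' : Type} [Ring S] [Ring S'] (e : S ≃+* S')
    (h : CentrallyEssential S') : CentrallyEssential S := by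
  intro a ha
  obtain ⟨x, hx, y, hy, hx0, hy0, hxy⟩ := h (e a) (fun h0 => ha (by simpa using h0))
  have hc : ∀ z ∈ Subring.center S', e.symm z ∈ Subring.center S := by
    intro z hz
    rw [Subring.mem_center_iff] at hz ⊢
    intro t
    apply e.injective
    rw [map_mul, map_mul, e.apply_symm_apply, hz]
  refine ⟨e.symm x, hc x hx, e.symm y, hc y hy, ?_, ?_, ?_⟩
  · intro h0; apply hx0; simpa using h0
  · intro h0; apply hy0; simpa using h0
  · apply e.injective
    rw [map_mul, e.apply_symm_apply, e.apply_symm_apply, hxy]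

end Realize

namespace B6

variable {k l : Type*} [CommRing k] [CommRing l]

theorem natCast_eq (n : ℕ) : (n : B6 k) = ⟨n, 0, 0, 0, 0, 0⟩ := by
  induction n with
  | zero => rw [Nat.cast_zero]; ext <;> simp
  | succ n ih => rw [Nat.cast_succ, ih]; ext <;> simp

end B6

end Pool.Agent.V111
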