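import Mathlib

/-!
# A countable ring as an endomorphism ring, up to multiples

Let `T` be a `ℚ`-algebra and `R` a countable subring which is reduced in the sense that no nonzero
element of `T` is divisible in the localization `R_(ℓ)` by all powers of the prime `ℓ`. Then there
are an abelian group `A` and a subring `O` of `T` with `End A ≅ O`, such that `R ⊆ O` and every
element of `O` has a positive multiple in `R`.
-/

namespace Pool.Agent.V111.Realize

set_option linter.unusedSectionVars false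

variable {T : Type} [Ring T] [Algebra ℚ T]

/-- `v` belongs to the localization of `R` at the prime `ℓ`. -/
def Loc (R : Subring T) (ℓ : ℕ) (v : T) : Prop := ∃ m : ℕ, ¬ ℓ ∣ m ∧ (m : T) * v ∈ R

/-- The reducedness condition. -/
def Reduced (R : Subring T) : Prop :=
  ∀ ℓ : ℕ, ℓ.Prime → ∀ r : T,
    (∀ k : ℕ, ∃ m : ℕ, ¬ ℓ ∣ m ∧ ∃ s ∈ R, (m : T) * r = (ℓ : T) ^ k * s) → r = 0

/-- The linear form `w ↦ w₁ α + w₂ β`. -/
def Lin (c : T × T) (w : T × T) : T := w.1 * c.1 + w.2 * c.2

theorem Lin_add (c w w' : T × T) : Lin c (w + w') = Lin c w + Lin c w' := by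
  simp only [Lin, Prod.fst_add, Prod.snd_add, add_mul]; abel

theorem Lin_neg (c w : T × T) : Lin c (-w) = -Lin c w := by
  simp only [Lin, Prod.fst_neg, Prod.snd_neg, neg_mul]; abel

theorem Lin_mul (c : T × T) (a : T) (w : T × T) : Lin c (a * w.1, a * w.2) = a * Lin c w := by
  simp only [Lin, mul_add, mul_assoc]

theorem Loc.add {R : Subring T} {ℓ : ℕ} (hℓ : ℓ.Prime) {v w : T} (hv : Loc R ℓ v)
    (hw : Loc R ℓ w) : Loc R ℓ (v + w) := by
  obtain ⟨m, hm, hmv⟩ := hv
  obtain ⟨n, hn, hnw⟩ := hw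
  refine ⟨m * n, ?_, ?_⟩
  · intro h
    rcases (Nat.Prime.dvd_mul hℓ).mp h with h | h
    · exact hm h
    · exact hn h
  · have : ((m * n : ℕ) : T) * (v + w) = (n : T) * ((m : T) * v) + (m : T) * ((n : T) * w) := by
      rw [mul_add, Nat.cast_mul]
      congr 1
      · rw [← mul_assoc, Nat.cast_comm]
      · rw [mul_assoc]
    rw [this]
    exact R.add_mem (R.mul_mem (natCast_mem R n) hmv) (R.mul_mem (natCast_mem R m) hnw)

theorem Loc.neg {R : Subring T} {ℓ : ℕ} {v : T} (hv : Loc R ℓ v) : Loc R ℓ (-v) := by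
  obtain ⟨m, hm, hmv⟩ := hv
  exact ⟨m, hm, by rw [mul_neg]; exact R.neg_mem hmv⟩

theorem Loc.mul {R : Subring T} {ℓ : ℕ} {v a : T} (ha : a ∈ R) (hv : Loc R ℓ v) :
    Loc R ℓ (a * v) := by
  obtain ⟨m, hm, hmv⟩ := hv
  refine ⟨m, hm, ?_⟩
  rw [← mul_assoc, Nat.cast_comm, mul_assoc]
  exact R.mul_mem ha hmv

theorem Loc.of_mem {R : Subring T} {ℓ : ℕ} (hℓ : ℓ.Prime) {v : T} (hv : v ∈ R) : Loc R ℓ v :=
  ⟨1, hℓ.one_lt.ne' ∘ Nat.dvd_one.mp, by rw [Nat.cast_one, one_mul]; exact hv⟩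

/-- The `i`-th prime. -/
noncomputable def pr (i : ℕ) : ℕ := Nat.nth Nat.Prime i

theorem pr_prime (i : ℕ) : (pr i).Prime := Nat.prime_nth_prime i

theorem pr_inj {i j : ℕ} (h : pr i = pr j) : i = j :=
  Nat.nth_injective Nat.infinite_setOfPred_prime h

/-- The group. -/
noncomputable def grp (R : Subring T) (b : ℕ → R × R) : AddSubgroup (T × T) where
  carrier := {w | (∃ n : ℕ, 0 < n ∧ (n : T) * w.1 ∈ R ∧ (n : T) * w.2 ∈ R) ∧
    ∀ i, Loc R (pr i) (Lin (((b i).1 : T), ((b i).2 : T)) w)}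
  zero_mem' := by
    refine ⟨⟨1, one_pos, ?_, ?_⟩, fun i => ?_⟩
    · simp
    · simp
    · simp only [Lin, Prod.fst_zero, Prod.snd_zero, zero_mul, add_zero]
      exact Loc.of_mem (pr_prime i) R.zero_mem
  add_mem' := by
    rintro v w ⟨⟨n, hn, h1, h2⟩, h3⟩ ⟨⟨m, hm, k1, k2⟩, k3⟩
    have key : ∀ x y : T, (n : T) * x ∈ R → (m : T) * y ∈ R → ((n * m : ℕ) : T) * (x + y) ∈ R := by
      intro x y hx hy
      have : ((n * m : ℕ) : T) * (x + y) = (m : T) * ((n : T) * x) + (n : T) * ((m : T) * y) := by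
        rw [mul_add, Nat.cast_mul]
        congr 1
        · rw [← mul_assoc, Nat.cast_comm]
        · rw [mul_assoc]
      rw [this]
      exact R.add_mem (R.mul_mem (natCast_mem R m) hx) (R.mul_mem (natCast_mem R n) hy)
    refine ⟨⟨n * m, Nat.mul_pos hn hm, key _ _ h1 k1, key _ _ h2 k2⟩, fun i => ?_⟩
    rw [Lin_add]
    exact (h3 i).add (pr_prime i) (k3 i)
  neg_mem' := by
    rintro v ⟨⟨n, hn, h1, h2⟩, h3⟩
    refine ⟨⟨n, hn, ?_, ?_⟩, fun i => ?_⟩
    · rw [Prod.fst_neg, mul_neg]; exact R.neg_mem h1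
    · rw [Prod.snd_neg, mul_neg]; exact R.neg_mem h2
    · rw [Lin_neg]; exact (h3 i).neg

theorem mem_grp_of_mem {R : Subring T} {b : ℕ → R × R} {r s : T} (hr : r ∈ R) (hs : s ∈ R) :
    (r, s) ∈ grp R b := by
  refine ⟨⟨1, one_pos, ?_, ?_⟩, fun i => ?_⟩
  · rw [Nat.cast_one, one_mul]; exact hr
  · rw [Nat.cast_one, one_mul]; exact hs
  · apply Loc.of_mem (pr_prime i)
    exact R.add_mem (R.mul_mem hr (b i).1.2) (R.mul_mem hs (b i).2.2)

theorem mul_mem_grp {R : Subring T} {b : ℕ → R × R} {a : T} (ha : a ∈ R) {w : T × T}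
    (hw : w ∈ grp R b) : (a * w.1, a * w.2) ∈ grp R b := by
  obtain ⟨⟨n, hn, h1, h2⟩, h3⟩ := hw
  refine ⟨⟨n, hn, ?_, ?_⟩, fun i => ?_⟩
  · change (n : T) * (a * w.1) ∈ R
    rw [← mul_assoc, Nat.cast_comm, mul_assoc]; exact R.mul_mem ha h1
  · change (n : T) * (a * w.2) ∈ R
    rw [← mul_assoc, Nat.cast_comm, mul_assoc]; exact R.mul_mem ha h2
  · rw [Lin_mul]; exact (h3 i).mul ha

/-- The scalar `1 / ℓ ^ k`. -/
noncomputable def inv (T : Type) [Ring T] [Algebra ℚ T] (ℓ k : ℕ) : T :=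
  algebraMap ℚ T (((ℓ : ℚ) ^ k)⁻¹)

theorem pow_mul_inv {ℓ : ℕ} (hℓ : ℓ.Prime) (k : ℕ) : ((ℓ ^ k : ℕ) : T) * inv T ℓ k = 1 := by
  have h : (ℓ : ℚ) ^ k ≠ 0 := pow_ne_zero _ (by exact_mod_cast hℓ.ne_zero)
  rw [inv, ← map_natCast (algebraMap ℚ T), ← map_mul, Nat.cast_pow, mul_inv_cancel₀ h, map_one]

theorem natCast_cancel {n : ℕ} (hn : 0 < n) {v w : T} (h : (n : T) * v = (n : T) * w) :
    v = w := by
  have h1 : algebraMap ℚ T ((n : ℚ)⁻¹) * (n : T) = 1 := by
    rw [← map_natCast (algebraMap ℚ T), ← map_mul,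
      inv_mul_cancel₀ (by exact_mod_cast hn.ne'), map_one]
  calc v = algebraMap ℚ T ((n : ℚ)⁻¹) * ((n : T) * v) := by rw [← mul_assoc, h1, one_mul]
    _ = algebraMap ℚ T ((n : ℚ)⁻¹) * ((n : T) * w) := by rw [h]
    _ = w := by rw [← mul_assoc, h1, one_mul]

/-- Division by powers of `ℓ` of the elements annihilated by the form attached to `ℓ`. -/
theorem div_mem_grp {R : Subring T} {b : ℕ → R × R} {w : T × T} (hw : w ∈ grp R b) (i : ℕ)
    (h0 : Lin (((b i).1 : T), ((b i).2 : T)) w = 0) (k : ℕ) :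
    (inv T (pr i) k * w.1, inv T (pr i) k * w.2) ∈ grp R b := by
  obtain ⟨⟨n, hn, h1, h2⟩, h3⟩ := hw
  have hcomm : ∀ v : T, ∀ m : ℕ,
      ((m * (pr i) ^ k : ℕ) : T) * (inv T (pr i) k * v) = (m : T) * v := by
    intro v m
    rw [← mul_assoc, Nat.cast_mul, mul_assoc (m : T), pow_mul_inv (pr_prime i), mul_one]
  refine ⟨⟨n * (pr i) ^ k, Nat.mul_pos hn (pow_pos (pr_prime i).pos k), ?_, ?_⟩, fun j => ?_⟩
  · rw [hcomm]; exact h1
  · rw [hcomm]; exact h2
  · rw [Lin_mul]
    by_cases hij : j = i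
    · subst hij
      rw [h0, mul_zero]
      exact Loc.of_mem (pr_prime j) R.zero_mem
    · obtain ⟨m, hm, hmem⟩ := h3 j
      refine ⟨m * (pr i) ^ k, ?_, ?_⟩
      · intro h
        rcases (Nat.Prime.dvd_mul (pr_prime j)).mp h with h | h
        · exact hm h
        · have := (Nat.prime_dvd_prime_iff_eq (pr_prime j) (pr_prime i)).mp
            ((pr_prime j).dvd_of_dvd_pow h)
          exact hij (pr_inj this)
      · rw [hcomm]; exact hmem

/-- An additive endomorphism preserves the relations `w₁ α + w₂ β = 0`. -/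
theorem lin_zero {R : Subring T} (hred : Reduced R) {b : ℕ → R × R}
    (F : AddMonoid.End (grp R b)) (w : grp R b) (i : ℕ)
    (h0 : Lin (((b i).1 : T), ((b i).2 : T)) (w : T × T) = 0) :
    Lin (((b i).1 : T), ((b i).2 : T)) (F w : T × T) = 0 := by
  apply hred (pr i) (pr_prime i)
  intro k
  obtain ⟨w', hw'⟩ : ∃ w' : grp R b, (w' : T × T) =
      (inv T (pr i) k * (w : T × T).1, inv T (pr i) k * (w : T × T).2) :=
    ⟨⟨_, div_mem_grp w.2 i h0 k⟩, rfl⟩
  have h1 : w = ((pr i) ^ k : ℕ) • w' := by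
    apply Subtype.ext
    rw [AddSubgroup.coe_nsmul, hw']
    refine Prod.ext ?_ ?_
    · rw [Prod.smul_fst, nsmul_eq_mul, ← mul_assoc, pow_mul_inv (pr_prime i), one_mul]
    · rw [Prod.smul_snd, nsmul_eq_mul, ← mul_assoc, pow_mul_inv (pr_prime i), one_mul]
  have h2 : F w = ((pr i) ^ k : ℕ) • F w' := by
    conv_lhs => rw [h1]
    exact map_nsmul F _ _
  obtain ⟨m, hm, hmem⟩ := (F w').2.2 i
  refine ⟨m, hm, _, hmem, ?_⟩
  have h3 : (F w : T × T) = (((pr i : T) ^ k) * (F w' : T × T).1,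
      ((pr i : T) ^ k) * (F w' : T × T).2) := by
    rw [h2, AddSubgroup.coe_nsmul]
    refine Prod.ext ?_ ?_
    · rw [Prod.smul_fst, nsmul_eq_mul, Nat.cast_pow]
    · rw [Prod.smul_snd, nsmul_eq_mul, Nat.cast_pow]
  rw [h3, Lin_mul, ← mul_assoc, ← mul_assoc, Nat.cast_comm]

/-- Every additive endomorphism is the left multiplication by an element of `T`. -/
theorem exists_mul {R : Subring T} (hred : Reduced R) {b : ℕ → R × R}
    (hb : Function.Surjective b) (F : AddMonoid.End (grp R b)) :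
    ∃ a : T, ∀ w : grp R b, (F w : T × T) = (a * (w : T × T).1, a * (w : T × T).2) := by
  have hlin : ∀ α β : R, ∀ w : grp R b, (w : T × T).1 * α + (w : T × T).2 * β = 0 →
      (F w : T × T).1 * α + (F w : T × T).2 * β = 0 := by
    intro α β w h
    obtain ⟨i, hi⟩ := hb (α, β)
    have := lin_zero hred F w i (by rw [hi]; exact h)
    rw [hi] at this
    exact this
  -- the elements `(r, 0)`, `(0, r)`
  obtain ⟨e1, he1⟩ : ∃ e1 : R → grp R b, ∀ r, (e1 r : T × T) = ((r : T), 0) :=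
    ⟨fun r => ⟨((r : T), 0), mem_grp_of_mem r.2 R.zero_mem⟩, fun _ => rfl⟩
  obtain ⟨e2, he2⟩ : ∃ e2 : R → grp R b, ∀ r, (e2 r : T × T) = (0, (r : T)) :=
    ⟨fun r => ⟨(0, (r : T)), mem_grp_of_mem R.zero_mem r.2⟩, fun _ => rfl⟩
  have h1 : ∀ r, (F (e1 r) : T × T).2 = 0 := by
    intro r
    have := hlin 0 1 (e1 r) (by rw [he1]; simp)
    simpa using this
  have h2 : ∀ r, (F (e2 r) : T × T).1 = 0 := by
    intro r
    have := hlin 1 0 (e2 r) (by rw [he2]; simp)
    simpa using this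
  have hadd : ∀ r s, (F (e1 r + e2 s) : T × T) = ((F (e1 r) : T × T).1, (F (e2 s) : T × T).2) := by
    intro r s
    rw [map_add, AddSubgroup.coe_add]
    refine Prod.ext ?_ ?_
    · rw [Prod.fst_add, h2, add_zero]
    · rw [Prod.snd_add, h1, zero_add]
  have hrs : ∀ r s, ((e1 r + e2 s : grp R b) : T × T) = ((r : T), (s : T)) := by
    intro r s
    rw [AddSubgroup.coe_add, he1, he2]
    simp
  have h3 : ∀ r, (F (e1 r) : T × T).1 = (F (e2 r) : T × T).2 := by
    intro r
    have := hlin 1 (-1) (e1 r + e2 r) (by rw [hrs]; simp)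
    rw [hadd] at this
    simp only [OneMemClass.coe_one, mul_one, NegMemClass.coe_neg, mul_neg] at this
    exact add_neg_eq_zero.mp this
  have h4 : ∀ r s : R, (F (e1 r) : T × T).1 * (s : T) = (F (e1 (r * s)) : T × T).1 := by
    intro r s
    have := hlin s (-1) (e1 r + e2 (r * s)) (by rw [hrs]; simp)
    rw [hadd, ← h3] at this
    simp only [OneMemClass.coe_one, mul_one, NegMemClass.coe_neg, mul_neg] at this
    exact add_neg_eq_zero.mp this
  obtain ⟨a, ha⟩ : ∃ a, a = (F (e1 1) : T × T).1 := ⟨_, rfl⟩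
  have h5 : ∀ r : R, (F (e1 r) : T × T).1 = a * (r : T) := by
    intro r
    rw [ha, h4, one_mul]
  refine ⟨a, fun w => ?_⟩
  obtain ⟨n, hn, k1, k2⟩ := w.2.1
  have h6 : n • w = e1 ⟨_, k1⟩ + e2 ⟨_, k2⟩ := by
    apply Subtype.ext
    rw [hrs, AddSubgroup.coe_nsmul]
    refine Prod.ext ?_ ?_
    · rw [Prod.smul_fst, nsmul_eq_mul]
    · rw [Prod.smul_snd, nsmul_eq_mul]
  have h7 : ((n • F w : grp R b) : T × T) =
      (a * ((n : T) * (w : T × T).1), a * ((n : T) * (w : T × T).2)) := by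
    rw [← map_nsmul, h6, hadd, h5, ← h3, h5]
  rw [AddSubgroup.coe_nsmul] at h7
  refine Prod.ext ?_ ?_
  · apply natCast_cancel hn
    have := congrArg Prod.fst h7
    rw [Prod.smul_fst, nsmul_eq_mul] at this
    rw [this]
    change a * ((n : T) * (w : T × T).1) = (n : T) * (a * (w : T × T).1)
    rw [← mul_assoc, ← mul_assoc, Nat.cast_comm]
  · apply natCast_cancel hn
    have := congrArg Prod.snd h7
    rw [Prod.smul_snd, nsmul_eq_mul] at this
    rw [this]
    change a * ((n : T) * (w : T × T).2) = (n : T) * (a * (w : T × T).2)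
    rw [← mul_assoc, ← mul_assoc, Nat.cast_comm]

/-- The ring of the elements of `T` which act on the group. -/
noncomputable def mulRing (R : Subring T) (b : ℕ → R × R) : Subring T where
  carrier := {a | ∀ w ∈ grp R b, (a * w.1, a * w.2) ∈ grp R b}
  one_mem' := by intro w hw; simpa using hw
  zero_mem' := by
    intro w _
    simp only [zero_mul]
    exact (grp R b).zero_mem
  mul_mem' := by
    intro a c ha hc w hw
    have := ha _ (hc w hw)
    simpa only [mul_assoc] using this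
  add_mem' := by
    intro a c ha hc w hw
    have := (grp R b).add_mem (ha w hw) (hc w hw)
    simpa only [add_mul, Prod.mk_add_mk] using this
  neg_mem' := by
    intro a ha w hw
    have := (grp R b).neg_mem (ha w hw)
    simpa only [neg_mul, Prod.neg_mk] using this

/-- A left multiplication as an endomorphism. -/
noncomputable def mulOne (R : Subring T) (b : ℕ → R × R) (a : mulRing R b) :
    AddMonoid.End (grp R b) where
  toFun := fun w => ⟨((a : T) * (w : T × T).1, (a : T) * (w : T × T).2), a.2 w w.2⟩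
  map_zero' := by apply Subtype.ext; simp
  map_add' := by
    intro v w
    apply Subtype.ext
    simp [mul_add]

theorem mulOne_apply (R : Subring T) (b : ℕ → R × R) (a : mulRing R b) (w : grp R b) :
    (mulOne R b a w : T × T) = ((a : T) * (w : T × T).1, (a : T) * (w : T × T).2) := rfl

/-- Left multiplications as endomorphisms. -/
noncomputable def mulHom (R : Subring T) (b : ℕ → R × R) :
    mulRing R b →+* AddMonoid.End (grp R b) where
  toFun a := mulOne R b a
  map_one' := by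
    apply DFunLike.ext
    intro w
    apply Subtype.ext
    rw [mulOne_apply, OneMemClass.coe_one, one_mul, one_mul]
    rfl
  map_zero' := by
    apply DFunLike.ext
    intro w
    apply Subtype.ext
    rw [mulOne_apply, ZeroMemClass.coe_zero, zero_mul, zero_mul]
    rfl
  map_mul' a c := by
    apply DFunLike.ext
    intro w
    apply Subtype.ext
    change _ = (mulOne R b a (mulOne R b c w) : T × T)
    rw [mulOne_apply, mulOne_apply, mulOne_apply, MulMemClass.coe_mul, mul_assoc, mul_assoc]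
  map_add' a c := by
    apply DFunLike.ext
    intro w
    apply Subtype.ext
    change _ = (mulOne R b a w : T × T) + (mulOne R b c w : T × T)
    rw [mulOne_apply, mulOne_apply, mulOne_apply, AddMemClass.coe_add, add_mul, add_mul]
    rfl

theorem mulHom_apply (R : Subring T) (b : ℕ → R × R) (a : mulRing R b) (w : grp R b) :
    (mulHom R b a w : T × T) = ((a : T) * (w : T × T).1, (a : T) * (w : T × T).2) := rfl

theorem mulHom_bijective {R : Subring T} (hred : Reduced R) {b : ℕ → R × R}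
    (hb : Function.Surjective b) : Function.Bijective (mulHom R b) := by
  obtain ⟨e, he⟩ : ∃ e : grp R b, (e : T × T) = (1, 0) :=
    ⟨⟨(1, 0), mem_grp_of_mem R.one_mem R.zero_mem⟩, rfl⟩
  constructor
  · intro a c h
    have h1 : (mulHom R b a e : T × T) = mulHom R b c e := by rw [h]
    rw [mulHom_apply, mulHom_apply, he] at h1
    have h2 := congrArg Prod.fst h1
    simp only [mul_one] at h2
    exact Subtype.ext h2
  · intro F
    obtain ⟨a, ha⟩ := exists_mul hred hb F
    refine ⟨⟨a, fun w hw => ?_⟩, ?_⟩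
    · have := ha ⟨w, hw⟩
      simp only at this
      rw [← this]
      exact (F ⟨w, hw⟩).2
    · apply DFunLike.ext
      intro w
      apply Subtype.ext
      rw [mulHom_apply, ha]

/-- **The realization theorem.** -/
theorem main (R : Subring T) [Countable R] (hred : Reduced R) :
    ∃ (A : Type) (_ : AddCommGroup A) (O : Subring T) (_ : AddMonoid.End A ≃+* O),
      R ≤ O ∧ ∀ a ∈ O, ∃ n : ℕ, 0 < n ∧ (n : T) * a ∈ R := by
  obtain ⟨b, hb⟩ := exists_surjective_nat (R × R)
  refine ⟨grp R b, inferInstance, mulRing R b,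
    (RingEquiv.ofBijective (mulHom R b) (mulHom_bijective hred hb)).symm, ?_, ?_⟩
  · intro a ha w hw
    exact mul_mem_grp ha hw
  · intro a ha
    obtain ⟨⟨n, hn, h1, _⟩, _⟩ := ha (1, 0) (mem_grp_of_mem R.one_mem R.zero_mem)
    refine ⟨n, hn, ?_⟩
    simpa using h1

end Pool.Agent.V111.Realize
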