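import Mathlib

/-!
The first Weyl algebra over `ℚ` as the algebra of operators on `ℚ[X]` generated by
multiplication by `X` and the derivative.
-/

namespace Pool.Agent.V111.WeylOne

open Polynomial

/-- All linear operators on `ℚ[X]`. -/
abbrev E : Type := Module.End ℚ ℚ[X]

/-- Multiplication by `X`. -/
noncomputable def x : E := LinearMap.mulLeft ℚ X

/-- The derivative. -/
noncomputable def d : E := Polynomial.derivative

/-- The first Weyl algebra. -/
noncomputable def A : Subalgebra ℚ E := Algebra.adjoin ℚ {x, d}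

/-- Multiplication by a polynomial. -/
noncomputable def mulP (p : ℚ[X]) : E := LinearMap.mulLeft ℚ p

theorem x_apply (p : ℚ[X]) : x p = X * p := rfl
theorem d_apply (p : ℚ[X]) : d p = derivative p := rfl
theorem mulP_apply (p q : ℚ[X]) : mulP p q = p * q := rfl

theorem x_mem : x ∈ A := Algebra.subset_adjoin (by simp)
theorem d_mem : d ∈ A := Algebra.subset_adjoin (by simp)

theorem ext_X {S T : E} (h : ∀ n : ℕ, S (X ^ n) = T (X ^ n)) : S = T := by
  refine Polynomial.lhom_ext' (fun n => ?_)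
  ext1
  simp only [LinearMap.comp_apply, monomial_one_right_eq_X_pow, h]

/-- The defining relation. -/
theorem dx : d * x = x * d + 1 := by
  apply LinearMap.ext
  intro p
  simp only [x_apply, d_apply, Module.End.mul_apply, derivative_mul, derivative_X, one_mul,
    LinearMap.add_apply, Module.End.one_apply]
  ring

/-- The commutator with `x`. -/
noncomputable def δ : E →ₗ[ℚ] E := LinearMap.mulRight ℚ x - LinearMap.mulLeft ℚ x

theorem δ_apply (T : E) : δ T = T * x - x * T := by
  simp [δ, LinearMap.sub_apply, LinearMap.mulRight_apply, LinearMap.mulLeft_apply]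

theorem δ_mul (S T : E) : δ (S * T) = δ S * T + S * δ T := by
  simp only [δ_apply, sub_mul, mul_sub, mul_assoc]
  abel

theorem δ_x : δ x = 0 := by rw [δ_apply]; simp
theorem δ_d : δ d = 1 := by rw [δ_apply, dx]; noncomm_ring
theorem δ_one : δ 1 = 0 := by rw [δ_apply]; simp
theorem δ_algebraMap (c : ℚ) : δ (algebraMap ℚ E c) = 0 := by
  rw [δ_apply, Algebra.commutes c x, sub_self]

theorem δ_mem {T : E} (hT : T ∈ A) : δ T ∈ A := by
  rw [δ_apply]
  exact A.sub_mem (A.mul_mem hT x_mem) (A.mul_mem x_mem hT)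

theorem pow_δ_mul_zero (N : ℕ) : ∀ n m, n + m ≤ N → ∀ S T : E, (δ ^ n) S = 0 → (δ ^ m) T = 0 →
    (δ ^ (n + m)) (S * T) = 0 := by
  induction N with
  | zero =>
    intro n m h S T hS hT
    obtain ⟨rfl, rfl⟩ : n = 0 ∧ m = 0 := by omega
    have hS' : S = 0 := hS
    rw [hS', zero_mul, map_zero]
  | succ N ih =>
    intro n m h S T hS hT
    rcases n with _ | n
    · have hS' : S = 0 := hS
      rw [hS', zero_mul, map_zero]
    rcases m with _ | m
    · have hT' : T = 0 := hT
      rw [hT', mul_zero, map_zero]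
    have h1 : (δ ^ (n + 1 + (m + 1))) (S * T) =
        (δ ^ (n + (m + 1))) (δ S * T) + (δ ^ (n + 1 + m)) (S * δ T) := by
      have e1 : n + 1 + (m + 1) = (n + (m + 1)) + 1 := by omega
      have e2 : n + 1 + m = n + (m + 1) := by omega
      rw [e1, e2, pow_succ, Module.End.mul_apply, δ_mul, map_add]
    rw [h1, ih n (m + 1) (by omega) (δ S) T (by rw [pow_succ] at hS; exact hS) hT,
      ih (n + 1) m (by omega) S (δ T) hS (by rw [pow_succ] at hT; exact hT), add_zero]

/-- The commutator with `x` is locally nilpotent on the Weyl algebra. -/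
theorem nilp {T : E} (hT : T ∈ A) : ∃ n, (δ ^ n) T = 0 := by
  induction hT using Algebra.adjoin_induction with
  | mem T hT =>
    rcases hT with rfl | rfl
    · exact ⟨1, by rw [pow_one, δ_x]⟩
    · exact ⟨2, by rw [pow_two, Module.End.mul_apply, δ_d, δ_one]⟩
  | algebraMap c => exact ⟨1, by rw [pow_one, δ_algebraMap]⟩
  | add S T _ _ hS hT =>
    obtain ⟨n, hn⟩ := hS
    obtain ⟨m, hm⟩ := hT
    refine ⟨n + m, ?_⟩
    rw [map_add, add_comm n m, pow_add, Module.End.mul_apply, hn, map_zero, ← pow_add,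
      add_comm m n, pow_add, Module.End.mul_apply, hm, map_zero, add_zero]
  | mul S T _ _ hS hT =>
    obtain ⟨n, hn⟩ := hS
    obtain ⟨m, hm⟩ := hT
    exact ⟨n + m, pow_δ_mul_zero (n + m) n m le_rfl S T hn hm⟩

/-- The order of a nonzero element. -/
theorem exists_order {T : E} (hT : T ∈ A) (h0 : T ≠ 0) :
    ∃ n, (δ ^ (n + 1)) T = 0 ∧ (δ ^ n) T ≠ 0 := by
  classical
  obtain ⟨n, hn⟩ := nilp hT
  have hex : ∃ n, (δ ^ n) T = 0 := ⟨n, hn⟩
  have hpos : Nat.find hex ≠ 0 := by
    intro h
    have := Nat.find_spec hex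
    rw [h] at this
    exact h0 this
  obtain ⟨m, hm⟩ := Nat.exists_eq_succ_of_ne_zero hpos
  refine ⟨m, ?_, ?_⟩
  · have := Nat.find_spec hex
    rwa [hm] at this
  · exact Nat.find_min hex (by omega)

/-- An operator commuting with `x` is the multiplication by a polynomial. -/
theorem eq_mulP {T : E} (h : δ T = 0) : T = mulP (T 1) := by
  rw [δ_apply, sub_eq_zero] at h
  have h1 : ∀ p : ℚ[X], T (X * p) = X * T p := fun p => congrArg (fun f : E => f p) h
  have h2 : ∀ n : ℕ, T (X ^ n) = T 1 * X ^ n := by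
    intro n
    induction n with
    | zero => simp
    | succ n ih => rw [pow_succ', h1, ih]; ring
  ext n
  simp only [LinearMap.comp_apply, mulP_apply, monomial_one_right_eq_X_pow, h2]

theorem δ_mulP (p : ℚ[X]) : δ (mulP p) = 0 := by
  rw [δ_apply, sub_eq_zero]
  ext n
  simp only [LinearMap.comp_apply, Module.End.mul_apply, mulP_apply, x_apply]
  congr 1
  ring

theorem mulP_mul (p q : ℚ[X]) : mulP p * mulP q = mulP (p * q) := by
  ext n
  simp only [LinearMap.comp_apply, Module.End.mul_apply, mulP_apply, mul_assoc]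

theorem mulP_eq_zero {p : ℚ[X]} (h : mulP p = 0) : p = 0 := by
  have := congrArg (fun f : E => f 1) h
  simpa [mulP_apply] using this

theorem mul_ne_zero_of_δ {S T : E} (hS : δ S = 0) (hT : δ T = 0) (hS0 : S ≠ 0) (hT0 : T ≠ 0) :
    S * T ≠ 0 := by
  rw [eq_mulP hS, eq_mulP hT, mulP_mul]
  intro h
  have h1 := mulP_eq_zero h
  rcases mul_eq_zero.mp h1 with h2 | h2
  · apply hS0
    rw [eq_mulP hS, h2]
    ext; simp [mulP_apply]
  · apply hT0
    rw [eq_mulP hT, h2]
    ext; simp [mulP_apply]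

theorem pow_δ_comm_left {S : E} (hS : δ S = 0) (m : ℕ) (T : E) :
    (δ ^ m) (S * T) = S * (δ ^ m) T := by
  induction m generalizing T with
  | zero => rfl
  | succ m ih => rw [pow_succ, Module.End.mul_apply, δ_mul, hS, zero_mul, zero_add, ih,
      Module.End.mul_apply]

theorem pow_δ_comm_right {T : E} (hT : δ T = 0) (m : ℕ) (S : E) :
    (δ ^ m) (S * T) = (δ ^ m) S * T := by
  induction m generalizing S with
  | zero => rfl
  | succ m ih => rw [pow_succ, Module.End.mul_apply, δ_mul, hT, mul_zero, add_zero, ih,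
      Module.End.mul_apply]

/-- The leading terms multiply. -/
theorem pow_δ_mul (N : ℕ) : ∀ n m, n + m ≤ N → ∀ S T : E, (δ ^ (n + 1)) S = 0 →
    (δ ^ (m + 1)) T = 0 →
    (δ ^ (n + m)) (S * T) = ((n + m).choose n) • ((δ ^ n) S * (δ ^ m) T) := by
  induction N with
  | zero =>
    intro n m h S T hS hT
    obtain ⟨rfl, rfl⟩ : n = 0 ∧ m = 0 := by omega
    simp
  | succ N ih =>
    intro n m h S T hS hT
    rcases n with _ | n
    · rw [zero_add, pow_one] at hS
      rw [zero_add, pow_δ_comm_left hS, Nat.choose_zero_right, one_smul]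
      rfl
    rcases m with _ | m
    · rw [zero_add, pow_one] at hT
      rw [add_zero, pow_δ_comm_right hT, Nat.choose_self, one_smul]
      rfl
    have h1 : (δ ^ (n + 1 + (m + 1))) (S * T) =
        (δ ^ (n + (m + 1))) (δ S * T) + (δ ^ (n + 1 + m)) (S * δ T) := by
      have e1 : n + 1 + (m + 1) = (n + (m + 1)) + 1 := by omega
      have e2 : n + 1 + m = n + (m + 1) := by omega
      rw [e1, e2, pow_succ, Module.End.mul_apply, δ_mul, map_add]
    have h2 := ih n (m + 1) (by omega) (δ S) T (by rw [pow_succ] at hS; exact hS) hT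
    have h3 := ih (n + 1) m (by omega) S (δ T) hS (by rw [pow_succ] at hT; exact hT)
    have h4 : (δ ^ n) (δ S) = (δ ^ (n + 1)) S := by rw [pow_succ]; rfl
    have h5 : (δ ^ m) (δ T) = (δ ^ (m + 1)) T := by rw [pow_succ]; rfl
    rw [h1, h2, h3, h4, h5, ← add_smul]
    congr 1
    have e1 : n + 1 + (m + 1) = (n + 1 + m) + 1 := by omega
    have e2 : n + (m + 1) = n + 1 + m := by omega
    rw [e1, Nat.choose_succ_succ, e2]

/-- Elements of the Weyl algebra with product one have order zero. -/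
theorem δ_eq_zero_of_mul_eq_one {S T : E} (hS : S ∈ A) (hT : T ∈ A) (h : S * T = 1) :
    δ S = 0 ∧ δ T = 0 := by
  have hS0 : S ≠ 0 := by rintro rfl; rw [zero_mul] at h; exact zero_ne_one h
  have hT0 : T ≠ 0 := by rintro rfl; rw [mul_zero] at h; exact zero_ne_one h
  obtain ⟨n, hn, hn'⟩ := exists_order hS hS0
  obtain ⟨m, hm, hm'⟩ := exists_order hT hT0
  have h1 := pow_δ_mul (n + m) n m le_rfl S T hn hm
  rw [h] at h1
  have hne : (δ ^ n) S * (δ ^ m) T ≠ 0 := by
    apply mul_ne_zero_of_δ _ _ hn' hm'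
    · rw [pow_succ'] at hn; exact hn
    · rw [pow_succ'] at hm; exact hm
  have h2 : n + m = 0 := by
    by_contra hne0
    obtain ⟨k, hk⟩ := Nat.exists_eq_succ_of_ne_zero hne0
    rw [hk, Nat.succ_eq_add_one, pow_succ, Module.End.mul_apply, δ_one, map_zero] at h1
    have h3 : ((k + 1).choose n) • ((δ ^ n) S * (δ ^ m) T) = 0 := h1.symm
    rcases smul_eq_zero.mp h3 with h4 | h4
    · have : 0 < (k + 1).choose n := Nat.choose_pos (by omega)
      omega
    · exact hne h4
  obtain ⟨rfl, rfl⟩ : n = 0 ∧ m = 0 := by omega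
  simp only [zero_add, pow_one] at hn hm
  exact ⟨hn, hm⟩

/-! ### Parity -/

/-- The parity operator `p(X) ↦ p(-X)`. -/
noncomputable def P : E := (Polynomial.aeval (-X : ℚ[X])).toLinearMap

theorem P_apply (p : ℚ[X]) : P p = aeval (-X : ℚ[X]) p := rfl

theorem P_mul (p q : ℚ[X]) : P (p * q) = P p * P q := by
  simp [P_apply]

theorem P_one : P 1 = 1 := by simp [P_apply]

theorem P_X_pow (n : ℕ) : P (X ^ n) = (-1) ^ n * X ^ n := by
  rw [P_apply, map_pow, aeval_X, neg_pow]

theorem P_neg_one_pow (n : ℕ) : P ((-1 : ℚ[X]) ^ n) = (-1) ^ n := by simp [P_apply]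

theorem PP : P * P = 1 := by
  apply ext_X
  intro n
  rw [Module.End.mul_apply, Module.End.one_apply, P_X_pow, P_mul, P_X_pow, P_neg_one_pow,
    ← mul_assoc, ← mul_pow]
  simp

theorem Px : P * x = -(x * P) := by
  apply ext_X
  intro n
  rw [Module.End.mul_apply, LinearMap.neg_apply, Module.End.mul_apply, x_apply, x_apply, P_mul,
    P_X_pow]
  have : P X = -X := by simp [P_apply]
  rw [this]
  ring

theorem Pd : P * d = -(d * P) := by
  apply ext_X
  intro n
  rw [Module.End.mul_apply, LinearMap.neg_apply, Module.End.mul_apply, d_apply, d_apply,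
    derivative_X_pow, P_X_pow, P_mul]
  rcases n with _ | n
  · have : P (C ((0 : ℕ) : ℚ)) = 0 := by simp
    rw [this]
    simp
  · have h1 : P (C ((n + 1 : ℕ) : ℚ)) = C ((n + 1 : ℕ) : ℚ) := by simp [P_apply]
    have h2 : ((-1 : ℚ[X]) ^ (n + 1)) = C ((-1) ^ (n + 1)) := by simp
    rw [h1, h2, derivative_C_mul, derivative_X_pow, Nat.add_sub_cancel, P_X_pow]
    simp only [C_pow, C_neg, C_1]
    ring

end Pool.Agent.V111.WeylOne
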